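import Pool.Agent.H61.HB.Stmts

/-! Project HB, row LIN: linearity of `dot`. -/

set_option autoImplicit false

namespace HB

theorem lin_thm (hBIL : BILStmt) (hMMB : MMBStmt) : LINStmt := by
  obtain ⟨C, -, hB⟩ := hBIL 2 le_rfl
  have hsum : ∀ (u : V) (f : Z2 → ℂ), Mem 2 u → MemS 2 f → ∀ k, Summable fun l => trm u f k l :=
    fun u f hu hf k => ((hB u f hu hf).1 k).of_norm
  have hsc : ∀ (c : ℝ) (s : ℝ) (f : Z2 → ℂ), MemS s f → MemS s (fun k => (c : ℂ) * f k) := by
    intro c s f hf
    unfold MemS at hf ⊢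
    refine (hf.mul_left (c ^ 2)).congr fun k => ?_
    rw [norm_mul, mul_pow, Complex.norm_real, Real.norm_eq_abs, sq_abs]
    ring
  have hlin : ∀ (c : Fin 2 → ℝ) (u : V),
      lin c u = (fun k => (c 0 : ℂ) * u 0 k) + (fun k => (c 1 : ℂ) * u 1 k) := by
    intro c u
    funext k
    simp [lin, Fin.sum_univ_two]
  refine ⟨?_, ?_, ?_, ?_⟩
  · intro u v f hu hv hf
    funext k
    change ∑' l, trm (u - v) f k l = ∑' l, trm u f k l - ∑' l, trm v f k l
    rw [← (hsum u f hu hf k).tsum_sub (hsum v f hv hf k)]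
    refine tsum_congr fun l => ?_
    unfold trm
    rw [← Finset.sum_sub_distrib]
    refine Finset.sum_congr rfl fun i _ => ?_
    simp only [Pi.sub_apply]
    ring
  · intro u f g hu hf hg
    funext k
    change ∑' l, trm u (f - g) k l = ∑' l, trm u f k l - ∑' l, trm u g k l
    rw [← (hsum u f hu hf k).tsum_sub (hsum u g hu hg k)]
    refine tsum_congr fun l => ?_
    unfold trm
    rw [← Finset.sum_sub_distrib]
    refine Finset.sum_congr rfl fun i _ => ?_
    simp only [Pi.sub_apply]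
    ring
  · intro c u v hu hv
    funext k
    change ∑ j, (c j : ℂ) * ∑' l, trm u (v j) k l = ∑' l, trm u (lin c v) k l
    rw [Fin.sum_univ_two, ← tsum_mul_left, ← tsum_mul_left,
      ← ((hsum u (v 0) hu (hv 0) k).mul_left _).tsum_add ((hsum u (v 1) hu (hv 1) k).mul_left _)]
    refine tsum_congr fun l => ?_
    unfold trm lin
    simp only [Fin.sum_univ_two]
    ring
  · intro c s u hu
    rw [hlin]
    exact (hMMB.2.2.1 s _ _ (hsc (c 0) s _ (hu 0)) (hsc (c 1) s _ (hu 1))).2.1

end HB
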